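import Pool.Agent.Helper28.LV.StN

/-!
# Project LV, module MF: a cusp form of level one from its coefficients
-/

set_option autoImplicit false

open Pool.Agent.Helper28.WK Pool.Agent.Helper28.LV Pool.Agent.Helper14.WK
open Pool.Agent.Helper14.CV (G0)
open UpperHalfPlane CongruenceSubgroup Matrix.SpecialLinearGroup ModularGroup Filter Topology
open scoped MatrixGroups ModularForm Manifold

namespace Pool.Agent.Helper63.LV

/-- Polynomial growth from the summability. -/
private theorem growth {n : ℕ} {b : ℕ → ℂ} (h0 : b 0 = 0)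
    (hs : Summable (fun M : ℕ => ‖b M‖ / (M : ℝ) ^ n)) :
    ∃ C : ℝ, 0 ≤ C ∧ ∀ M : ℕ, ‖b M‖ ≤ C * (M : ℝ) ^ n := by
  refine ⟨∑' M : ℕ, ‖b M‖ / (M : ℝ) ^ n, tsum_nonneg fun M => by positivity, fun M => ?_⟩
  rcases Nat.eq_zero_or_pos M with hM | hM
  · subst hM
    rw [h0, norm_zero]
    exact mul_nonneg (tsum_nonneg fun M => by positivity) (by positivity)
  · have h1 := hs.le_tsum M (fun j _ => by positivity)
    have h2 : (0 : ℝ) < (M : ℝ) ^ n := by positivity
    rwa [div_le_iff₀ h2] at h1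

private theorem summ {n : ℕ} {b : ℕ → ℂ} {C : ℝ} (hC : ∀ M : ℕ, ‖b M‖ ≤ C * (M : ℝ) ^ n)
    {r : ℝ} (hr0 : 0 ≤ r) (hr : r < 1) : Summable (fun M : ℕ => ‖b M‖ * r ^ M) := by
  have h1 : Summable (fun M : ℕ => (M : ℝ) ^ n * r ^ M) :=
    summable_pow_mul_geometric_of_norm_lt_one n (by rwa [Real.norm_eq_abs, abs_of_nonneg hr0])
  refine Summable.of_nonneg_of_le (fun M => by positivity) (fun M => ?_) (h1.mul_left C)
  have := mul_le_mul_of_nonneg_right (hC M) (pow_nonneg hr0 M)
  linarith [mul_assoc C ((M : ℝ) ^ n) (r ^ M)]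

private theorem exp_pow (M : ℕ) (z : ℂ) : Complex.exp (2 * Real.pi * Complex.I * M * z) =
    Complex.exp (2 * Real.pi * Complex.I * z) ^ M := by
  rw [← Complex.exp_nat_mul]
  congr 1
  ring

private theorem norm_q (z : ℂ) : ‖Complex.exp (2 * Real.pi * Complex.I * z)‖ =
    Real.exp (-(2 * Real.pi * z.im)) := by
  rw [Complex.norm_exp]
  congr 1
  have : (2 * Real.pi * Complex.I * z : ℂ) = ((2 * Real.pi : ℝ) : ℂ) * (Complex.I * z) := by
    push_cast
    ring
  rw [this, Complex.re_ofReal_mul, Complex.I_mul_re]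
  ring

private theorem norm_q_lt {z : ℂ} (hz : 0 < z.im) :
    ‖Complex.exp (2 * Real.pi * Complex.I * z)‖ < 1 := by
  rw [norm_q, Real.exp_lt_one_iff]
  have := Real.pi_pos
  have : 0 < 2 * Real.pi * z.im := by positivity
  linarith

private theorem hasSum_FF {n : ℕ} {b : ℕ → ℂ} {C : ℝ} (hC : ∀ M : ℕ, ‖b M‖ ≤ C * (M : ℝ) ^ n)
    {z : ℂ} (hz : 0 < z.im) :
    HasSum (fun M : ℕ => b M * Complex.exp (2 * Real.pi * Complex.I * M * z)) (FF b z) := by
  refine Summable.hasSum ?_
  refine Summable.of_norm ?_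
  refine (summ hC (norm_nonneg _) (norm_q_lt hz)).congr fun M => ?_
  rw [norm_mul, exp_pow, norm_pow]

private theorem diff_FF {n : ℕ} {b : ℕ → ℂ} {C : ℝ} (hC : ∀ M : ℕ, ‖b M‖ ≤ C * (M : ℝ) ^ n) :
    DifferentiableOn ℂ (FF b) {z : ℂ | 0 < z.im} := by
  intro z hz
  have hz' : 0 < z.im := hz
  have hopen : IsOpen {w : ℂ | z.im / 2 < w.im} := isOpen_lt continuous_const Complex.continuous_im
  have hmem : z ∈ {w : ℂ | z.im / 2 < w.im} := by
    change z.im / 2 < z.im
    linarith
  have hr : Real.exp (-(2 * Real.pi * (z.im / 2))) < 1 := by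
    rw [Real.exp_lt_one_iff]
    have := Real.pi_pos
    have : 0 < 2 * Real.pi * (z.im / 2) := by positivity
    linarith
  have h1 : DifferentiableOn ℂ (fun w : ℂ => ∑' M : ℕ,
      b M * Complex.exp (2 * Real.pi * Complex.I * M * w)) {w : ℂ | z.im / 2 < w.im} := by
    refine Complex.differentiableOn_tsum_of_summable_norm (summ hC (Real.exp_pos _).le hr) (fun M => ?_)
      hopen (fun M w hw => ?_)
    · exact ((Complex.differentiable_exp.comp
        ((differentiable_const _).mul differentiable_id)).const_mul _).differentiableOn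
    · rw [norm_mul, exp_pow, norm_pow, norm_q]
      refine mul_le_mul_of_nonneg_left (pow_le_pow_left₀ (Real.exp_pos _).le ?_ M) (norm_nonneg _)
      rw [Real.exp_le_exp]
      have hw' : z.im / 2 < w.im := hw
      have := Real.pi_pos
      have := mul_le_mul_of_nonneg_left hw'.le (by positivity : (0 : ℝ) ≤ 2 * Real.pi)
      linarith
  exact ((h1 z hmem).differentiableAt (hopen.mem_nhds hmem)).differentiableWithinAt

private theorem qp (τ : ℍ) (M : ℕ) : Function.Periodic.qParam 1 (τ : ℂ) ^ M =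
    Complex.exp (2 * Real.pi * Complex.I * M * τ) := by
  rw [exp_pow]
  congr 1
  unfold Function.Periodic.qParam
  simp

/-- Module MF. -/
theorem hMF : MF := by
  intro p a b hb0 hs hS
  obtain ⟨C, hC0, hC⟩ := growth hb0 hs
  set f : ℍ → ℂ := fun τ => FF b τ with hf
  have hsum : ∀ τ : ℍ, HasSum (fun m : ℕ => b m • Function.Periodic.qParam 1 (τ : ℂ) ^ m) (f τ) := by
    intro τ
    have h1 := hasSum_FF hC τ.im_pos
    have h2 : (fun M : ℕ => b M * Complex.exp (2 * Real.pi * Complex.I * M * (τ : ℂ))) =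
        fun m : ℕ => b m • Function.Periodic.qParam 1 (τ : ℂ) ^ m := by
      funext m
      rw [qp, smul_eq_mul]
    rw [h2] at h1
    exact h1
  have hT : f ∣[(2 * (a : ℤ) + 2 : ℤ)] T = f := by
    funext τ
    rw [ModularForm.SL_slash_apply]
    have h1 : UpperHalfPlane.denom T τ = 1 := by
      rw [ModularGroup.denom_apply]
      simp [T]
    have h2 : ((T • τ : ℍ) : ℂ) = (τ : ℂ) + 1 := by
      rw [modular_T_smul, coe_vadd]
      push_cast
      ring
    rw [h1, one_zpow, mul_one]
    simp only [hf]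
    rw [h2]
    unfold FF
    refine tsum_congr fun M => ?_
    congr 1
    rw [mul_add, Complex.exp_add, mul_one]
    have h3 : Complex.exp (2 * Real.pi * Complex.I * M) = 1 := by
      rw [Complex.exp_eq_one_iff]
      exact ⟨M, by push_cast; ring⟩
    rw [h3, mul_one]
  have hSS : f ∣[(2 * (a : ℤ) + 2 : ℤ)] S = f := by
    funext τ
    rw [SlashInvariantForm.slash_S_apply]
    have hz : (τ : ℂ) ≠ 0 := τ.ne_zero
    have h2 := hS τ τ.im_pos
    have h3 : f (.mk _ τ.im_inv_neg_coe_pos) = FF b (-1 / (τ : ℂ)) := by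
      simp only [hf]
      congr 1
      rw [inv_neg, neg_div, one_div]
    rw [h3, h2]
    have h4 : (τ : ℂ) ^ (-(2 * (a : ℤ) + 2) : ℤ) = ((τ : ℂ) ^ (2 * a + 2))⁻¹ := by
      rw [zpow_neg, ← zpow_natCast]
      congr 2
    rw [h4]
    simp only [hf]
    have h5 : (τ : ℂ) ^ (2 * a + 2) ≠ 0 := pow_ne_zero _ hz
    field_simp
  have hSL := SlashInvariantForm.slash_action_generators_SL2Z hSS hT
  have hzero : IsZeroAtImInfty f := by
    set g : ℍ → ℂ := fun τ => ∑' m : ℕ, b (m + 1) • Function.Periodic.qParam 1 (τ : ℂ) ^ m with hg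
    have hgs : ∀ τ : ℍ, HasSum (fun m : ℕ => b (m + 1) • Function.Periodic.qParam 1 (τ : ℂ) ^ m)
        (g τ) := by
      intro τ
      refine Summable.hasSum ?_
      have h1 := (hsum τ).summable
      have h2 := (summable_nat_add_iff 1).mpr h1
      have hq : Function.Periodic.qParam 1 (τ : ℂ) ≠ 0 := Function.Periodic.qParam_ne_zero _
      refine (h2.mul_left (Function.Periodic.qParam 1 (τ : ℂ))⁻¹).congr fun m => ?_
      simp only [smul_eq_mul]
      rw [pow_succ]
      field_simp
    have hgb := isBoundedAtImInfty_of_hasSum_qExpansion one_pos hgs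
    have hfg : f = (fun τ : ℍ => Function.Periodic.qParam 1 (τ : ℂ)) * g := by
      funext τ
      have h1 := (hasSum_nat_add_iff' 1).mpr (hsum τ)
      rw [Finset.sum_range_one, hb0, zero_smul, sub_zero] at h1
      have h2 := (hgs τ).mul_left (Function.Periodic.qParam 1 (τ : ℂ))
      refine h1.unique ?_
      refine (congrArg (fun F => HasSum F _) ?_).mp h2
      funext m
      simp only [smul_eq_mul]
      rw [pow_succ]
      ring
    rw [hfg]
    exact Filter.ZeroAtFilter.mul_boundedAtFilter (qParam_tendsto_atImInfty one_pos) hgb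
  have hle : G0 (p ^ 0) ≤ 𝒮ℒ := by
    rintro _ ⟨γ, -, rfl⟩
    exact ⟨γ, rfl⟩
  refine ⟨{ toFun := f
            slash_action_eq' := ?_
            holo' := ?_
            zero_at_cusps' := ?_ }, ?_⟩
  · rintro _ ⟨γ, -, rfl⟩
    exact hSL γ
  · rw [UpperHalfPlane.mdifferentiable_iff]
    refine (diff_FF hC).congr fun z hz => ?_
    have hz' : 0 < z.im := hz
    change f (ofComplex z) = FF b z
    rw [ofComplex_apply_of_im_pos hz']
  · intro c hc
    have hc' : IsCusp c 𝒮ℒ := hc.mono hle
    rw [OnePoint.isZeroAt_iff_forall_SL2Z hc']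
    intro γ _
    rw [hSL γ]
    exact hzero
  · intro M
    refine (ModularFormClass.qExpansion_coeff_unique (h := 1) one_pos ?_ hsum M).symm
    rw [CongruenceSubgroup.strictPeriods_Gamma0]
    exact AddSubgroup.mem_zmultiples 1

end Pool.Agent.Helper63.LV
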